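import Pool.Agent.H83.HD.PRNM

/-! # Project HD, module TEL: difference of products over independent blocks -/

set_option autoImplicit false

open MeasureTheory ProbabilityTheory

namespace Pool.Agent.H22.HD

namespace TEL

/-- the mixed factor -/
noncomputable def th {𝕜 : Type} [RCLike 𝕜] {Ω : Type} {m : ℕ} (φ ψ : Ω → 𝕜) (k : ℕ) (j : Fin m) :
    Ω → 𝕜 :=
  if (j : ℕ) < k then φ else if (j : ℕ) = k then (fun x => φ x - ψ x) else ψ

/-- the mixed product -/
noncomputable def hh {𝕜 : Type} [RCLike 𝕜] {Ω : Type} {m : ℕ} (φ ψ : Ω → 𝕜) (k : ℕ)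
    (x : Fin m → Ω) : 𝕜 :=
  ∏ j : Fin m, (if (j : ℕ) < k then φ (x j) else ψ (x j))

theorem hh_succ {𝕜 : Type} [RCLike 𝕜] {Ω : Type} {m : ℕ} (φ ψ : Ω → 𝕜) (k : ℕ) (hk : k < m)
    (x : Fin m → Ω) : hh φ ψ (k + 1) x - hh φ ψ k x = ∏ j : Fin m, th φ ψ k j (x j) := by
  have hmem : (⟨k, hk⟩ : Fin m) ∈ (Finset.univ : Finset (Fin m)) := Finset.mem_univ _
  unfold hh
  rw [← Finset.mul_prod_erase Finset.univ
      (fun j : Fin m => if (j : ℕ) < k + 1 then φ (x j) else ψ (x j)) hmem,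
    ← Finset.mul_prod_erase Finset.univ
      (fun j : Fin m => if (j : ℕ) < k then φ (x j) else ψ (x j)) hmem,
    ← Finset.mul_prod_erase Finset.univ (fun j : Fin m => th φ ψ k j (x j)) hmem]
  have e1 : ∏ j ∈ Finset.univ.erase (⟨k, hk⟩ : Fin m),
      (if (j : ℕ) < k + 1 then φ (x j) else ψ (x j)) =
      ∏ j ∈ Finset.univ.erase (⟨k, hk⟩ : Fin m), th φ ψ k j (x j) := by
    apply Finset.prod_congr rfl
    intro j hj
    have hne : (j : ℕ) ≠ k := by
      intro h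
      exact (Finset.mem_erase.mp hj).1 (Fin.ext h)
    unfold th
    by_cases h : (j : ℕ) < k
    · rw [if_pos (by omega), if_pos h]
    · rw [if_neg (by omega), if_neg h, if_neg hne]
  have e2 : ∏ j ∈ Finset.univ.erase (⟨k, hk⟩ : Fin m),
      (if (j : ℕ) < k then φ (x j) else ψ (x j)) =
      ∏ j ∈ Finset.univ.erase (⟨k, hk⟩ : Fin m), th φ ψ k j (x j) := by
    apply Finset.prod_congr rfl
    intro j hj
    have hne : (j : ℕ) ≠ k := by
      intro h
      exact (Finset.mem_erase.mp hj).1 (Fin.ext h)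
    unfold th
    by_cases h : (j : ℕ) < k
    · rw [if_pos h, if_pos h]
    · rw [if_neg h, if_neg h, if_neg hne]
  have e3 : th φ ψ k (⟨k, hk⟩ : Fin m) (x ⟨k, hk⟩) = φ (x ⟨k, hk⟩) - ψ (x ⟨k, hk⟩) := by
    unfold th
    rw [if_neg (by simp), if_pos rfl]
  rw [e1, e2, e3]
  simp only [Nat.lt_succ_self, lt_irrefl, if_true, if_false]
  ring

theorem hh_zero {𝕜 : Type} [RCLike 𝕜] {Ω : Type} {m : ℕ} (φ ψ : Ω → 𝕜) (x : Fin m → Ω) :
    hh φ ψ 0 x = ∏ j, ψ (x j) := by
  unfold hh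
  simp

theorem hh_top {𝕜 : Type} [RCLike 𝕜] {Ω : Type} {m : ℕ} (φ ψ : Ω → 𝕜) (x : Fin m → Ω) :
    hh φ ψ m x = ∏ j, φ (x j) := by
  unfold hh
  apply Finset.prod_congr rfl
  intro j _
  rw [if_pos j.2]

theorem th_meas {𝕜 : Type} [RCLike 𝕜] {Ω : Type} [MeasurableSpace Ω] {m : ℕ} {φ ψ : Ω → 𝕜}
    (hφ : Measurable φ) (hψ : Measurable ψ) (k : ℕ) (j : Fin m) : Measurable (th φ ψ k j) := by
  unfold th
  split_ifs
  · exact hφ
  · exact hφ.sub hψ
  · exact hψ

/-- the norm of one term -/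
theorem term_le {𝕜 : Type} [RCLike 𝕜] {Ω : Type} [MeasurableSpace Ω] {μ : Measure Ω}
    [IsProbabilityMeasure μ] {p : ℝ} (hp : 1 ≤ p) {m : ℕ} {φ ψ : Ω → 𝕜}
    (hφ : Measurable φ) (hψ : Measurable ψ) (h1 : eLpNorm φ (ENNReal.ofReal p) μ ≤ 2)
    (h2 : eLpNorm ψ (ENNReal.ofReal p) μ ≤ 2) (k : ℕ) (hk : k < m) :
    eLpNorm (fun x : Fin m → Ω => ∏ j : Fin m, th φ ψ k j (x j)) (ENNReal.ofReal p)
      (Measure.pi fun _ => μ) ≤
      2 ^ m * eLpNorm (fun x => φ x - ψ x) (ENNReal.ofReal p) μ := by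
  rw [PRN_gen hp (fun j => th φ ψ k j) (fun j => th_meas hφ hψ k j)]
  have hmem : (⟨k, hk⟩ : Fin m) ∈ (Finset.univ : Finset (Fin m)) := Finset.mem_univ _
  rw [← Finset.mul_prod_erase Finset.univ
    (fun j : Fin m => eLpNorm (th φ ψ k j) (ENNReal.ofReal p) μ) hmem]
  have e3 : th φ ψ k (⟨k, hk⟩ : Fin m) = fun x => φ x - ψ x := by
    unfold th
    rw [if_neg (by simp), if_pos rfl]
  rw [e3, mul_comm]
  gcongr
  calc ∏ j ∈ Finset.univ.erase (⟨k, hk⟩ : Fin m), eLpNorm (th φ ψ k j) (ENNReal.ofReal p) μ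
      ≤ ∏ _j ∈ Finset.univ.erase (⟨k, hk⟩ : Fin m), (2 : ENNReal) := by
        apply Finset.prod_le_prod'
        intro j hj
        have hne : (j : ℕ) ≠ k := by
          intro h
          exact (Finset.mem_erase.mp hj).1 (Fin.ext h)
        unfold th
        split_ifs with h
        · exact h1
        · exact h2
    _ = 2 ^ (m - 1) := by
        rw [Finset.prod_const, Finset.card_erase_of_mem hmem, Finset.card_univ, Fintype.card_fin]
    _ ≤ 2 ^ m := pow_le_pow_right₀ (by norm_num) (Nat.sub_le m 1)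

end TEL

open TEL in
theorem tel_thm : TELStmt := by
  intro 𝕜 _ Ω _ μ _ p hp m φ ψ hφ hψ h1 h2
  have hrep : (fun x : Fin m → Ω => ∏ j, φ (x j) - ∏ j, ψ (x j)) =
      ∑ k ∈ Finset.range m, (fun x : Fin m → Ω => if k < m then
        ∏ j : Fin m, th φ ψ k j (x j) else 0) := by
    funext x
    rw [Finset.sum_apply, ← hh_top φ ψ x, ← hh_zero φ ψ x, ← Finset.sum_range_sub (fun k => hh φ ψ k x)]
    apply Finset.sum_congr rfl
    intro k hk
    rw [if_pos (Finset.mem_range.mp hk)]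
    exact hh_succ φ ψ k (Finset.mem_range.mp hk) x
  rw [hrep]
  have hmeas : ∀ k ∈ Finset.range m, AEStronglyMeasurable (fun x : Fin m → Ω => if k < m then
        ∏ j : Fin m, th φ ψ k j (x j) else 0) (Measure.pi fun _ => μ) := by
    intro k hk
    have : (fun x : Fin m → Ω => if k < m then ∏ j : Fin m, th φ ψ k j (x j) else 0) =
        fun x : Fin m → Ω => ∏ j : Fin m, th φ ψ k j (x j) := by
      funext x
      rw [if_pos (Finset.mem_range.mp hk)]
    rw [this]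
    exact (Finset.measurable_fun_prod _ (fun j _ =>
      (th_meas hφ hψ k j).comp (measurable_pi_apply j))).aestronglyMeasurable
  refine (eLpNorm_sum_le hmeas (by
    rw [← ENNReal.ofReal_one]; exact ENNReal.ofReal_le_ofReal hp)).trans ?_
  calc ∑ k ∈ Finset.range m, eLpNorm (fun x : Fin m → Ω => if k < m then
        ∏ j : Fin m, th φ ψ k j (x j) else 0) (ENNReal.ofReal p) (Measure.pi fun _ => μ)
      ≤ ∑ _k ∈ Finset.range m, 2 ^ m *
          eLpNorm (fun x => φ x - ψ x) (ENNReal.ofReal p) μ := by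
        apply Finset.sum_le_sum
        intro k hk
        have hk' := Finset.mem_range.mp hk
        simp only [if_pos hk']
        exact term_le hp hφ hψ h1 h2 k hk'
    _ = m * 2 ^ m * eLpNorm (fun x => φ x - ψ x) (ENNReal.ofReal p) μ := by
        rw [Finset.sum_const, Finset.card_range, nsmul_eq_mul, mul_assoc]

end Pool.Agent.H22.HD
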